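import Mathlib

/-!
Expectations with respect to the `p`-biased random subset of a finite set.
-/

namespace Pool.Agent.Lib.MP_79d702_lc

open Finset

set_option linter.unusedSectionVars false

variable {U : Type} [DecidableEq U]

/-- Expectation of `G` at a `p`-biased random subset of `V`. -/
noncomputable def ExV (V : Finset U) (p : ℝ) (G : Finset U → ℝ) : ℝ :=
  ∑ x ∈ V.powerset, p ^ x.card * (1 - p) ^ (V.card - x.card) * G x

theorem ExV_empty (p : ℝ) (G : Finset U → ℝ) : ExV ∅ p G = G ∅ := by
  simp [ExV]

theorem ExV_insert {V : Finset U} {a : U} (ha : a ∉ V) (p : ℝ) (G : Finset U → ℝ) :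
    ExV (insert a V) p G = p * ExV V p (fun x => G (insert a x)) + (1 - p) * ExV V p G := by
  unfold ExV
  rw [sum_powerset_insert ha, card_insert_of_notMem ha, mul_sum, mul_sum, add_comm]
  congr 1
  · refine sum_congr rfl fun x hx => ?_
    have hx' := mem_powerset.1 hx
    have hax : a ∉ x := fun h => ha (hx' h)
    rw [card_insert_of_notMem hax, Nat.add_sub_add_right]
    ring
  · refine sum_congr rfl fun x hx => ?_
    have hx' := card_le_card (mem_powerset.1 hx)
    rw [Nat.succ_sub hx', Nat.succ_eq_add_one]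
    ring

theorem ExV_add (V : Finset U) (p : ℝ) (G H : Finset U → ℝ) :
    ExV V p (fun x => G x + H x) = ExV V p G + ExV V p H := by
  unfold ExV
  rw [← sum_add_distrib]
  exact sum_congr rfl fun x _ => by ring

theorem ExV_mul (V : Finset U) (p c : ℝ) (G : Finset U → ℝ) :
    ExV V p (fun x => c * G x) = c * ExV V p G := by
  unfold ExV
  rw [mul_sum]
  exact sum_congr rfl fun x _ => by ring

theorem ExV_sub (V : Finset U) (p : ℝ) (G H : Finset U → ℝ) :
    ExV V p (fun x => G x - H x) = ExV V p G - ExV V p H := by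
  unfold ExV
  rw [← sum_sub_distrib]
  exact sum_congr rfl fun x _ => by ring

theorem ExV_sum {ι : Type} (V : Finset U) (p : ℝ) (s : Finset ι) (G : ι → Finset U → ℝ) :
    ExV V p (fun x => ∑ i ∈ s, G i x) = ∑ i ∈ s, ExV V p (G i) := by
  unfold ExV
  rw [sum_comm]
  exact sum_congr rfl fun x _ => by rw [mul_sum]

theorem ExV_const (V : Finset U) (p c : ℝ) : ExV V p (fun _ => c) = c := by
  induction V using Finset.induction_on with
  | empty => exact ExV_empty _ _
  | insert a V ha ih => rw [ExV_insert ha, ih]; ring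

theorem ExV_mono {V : Finset U} {p : ℝ} (h0 : 0 ≤ p) (h1 : p ≤ 1) {G H : Finset U → ℝ}
    (h : ∀ x ⊆ V, G x ≤ H x) : ExV V p G ≤ ExV V p H := by
  refine sum_le_sum fun x hx => mul_le_mul_of_nonneg_left (h x (mem_powerset.1 hx)) ?_
  have : 0 ≤ 1 - p := by linarith
  positivity

theorem ExV_congr {V : Finset U} {p : ℝ} {G H : Finset U → ℝ}
    (h : ∀ x ⊆ V, G x = H x) : ExV V p G = ExV V p H :=
  sum_congr rfl fun x hx => by rw [h x (mem_powerset.1 hx)]

theorem ExV_nonneg {V : Finset U} {p : ℝ} (h0 : 0 ≤ p) (h1 : p ≤ 1) {G : Finset U → ℝ}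
    (h : ∀ x ⊆ V, 0 ≤ G x) : 0 ≤ ExV V p G := by
  have := ExV_mono h0 h1 (G := fun _ => 0) h
  rwa [ExV_const] at this

theorem ExV_le_one {V : Finset U} {p : ℝ} (h0 : 0 ≤ p) (h1 : p ≤ 1) {G : Finset U → ℝ}
    (h : ∀ x ⊆ V, G x ≤ 1) : ExV V p G ≤ 1 := by
  have := ExV_mono h0 h1 (H := fun _ => 1) h
  rwa [ExV_const] at this

/-- The probability that a fixed set is contained in the random set. -/
theorem ExV_subset (V : Finset U) (p : ℝ) {T : Finset U} (hT : T ⊆ V) :
    ExV V p (fun x => if T ⊆ x then 1 else 0) = p ^ T.card := by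
  induction V using Finset.induction_on generalizing T with
  | empty =>
    obtain rfl := subset_empty.1 hT
    simp [ExV_empty]
  | insert a V ha ih =>
    rw [ExV_insert ha]
    by_cases haT : a ∈ T
    · have h1 : ExV V p (fun x => if T ⊆ x then (1 : ℝ) else 0) = 0 := by
        refine Eq.trans (ExV_congr fun x hx => ?_) (ExV_const V p 0)
        exact if_neg fun h : T ⊆ x => ha (hx (h haT))
      have h2 : ExV V p (fun x => if T ⊆ insert a x then (1 : ℝ) else 0) =
          p ^ (T.erase a).card := by
        rw [← ih (T := T.erase a) (subset_insert_iff.1 hT)]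
        simp only [subset_insert_iff]
      rw [h1, h2, ← card_erase_add_one haT]
      ring
    · have hTV : T ⊆ V := (subset_insert_iff_of_notMem haT).1 hT
      simp only [subset_insert_iff_of_notMem haT]
      rw [ih hTV]
      ring

/-- The union of independent biased sets is a biased set. -/
theorem ExV_union (V : Finset U) (a b : ℝ) (G : Finset U → ℝ) :
    ExV V a (fun x => ExV V b (fun h => G (x ∪ h))) = ExV V (a + b - a * b) G := by
  induction V using Finset.induction_on generalizing G with
  | empty => simp [ExV_empty]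
  | insert u V hu ih =>
    rw [ExV_insert hu, ExV_insert hu]
    simp only [ExV_insert hu, ExV_add, ExV_mul, insert_union, union_insert, insert_idem]
    rw [ih (fun x => G (insert u x)), ih G]
    ring

theorem ExV_zero (V : Finset U) (G : Finset U → ℝ) : ExV V 0 G = G ∅ := by
  induction V using Finset.induction_on with
  | empty => exact ExV_empty _ _
  | insert a V ha ih => rw [ExV_insert ha, ih]; ring

/-- The bias of the union of `j` independent `p`-biased sets. -/
noncomputable def bias (p : ℝ) (j : ℕ) : ℝ := 1 - (1 - p) ^ j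

theorem bias_zero (p : ℝ) : bias p 0 = 0 := by simp [bias]

theorem bias_succ (p : ℝ) (j : ℕ) : bias p (j + 1) = bias p j + p - bias p j * p := by
  unfold bias
  ring

theorem bias_nonneg {p : ℝ} (h0 : 0 ≤ p) (h1 : p ≤ 1) (j : ℕ) : 0 ≤ bias p j := by
  unfold bias
  have : (1 - p) ^ j ≤ 1 := pow_le_one₀ (by linarith) (by linarith)
  linarith

theorem bias_le_one {p : ℝ} (h1 : p ≤ 1) (j : ℕ) : bias p j ≤ 1 := by
  unfold bias
  have : 0 ≤ (1 - p) ^ j := pow_nonneg (by linarith) _
  linarith

theorem bias_le {p : ℝ} (h1 : p ≤ 1) (j : ℕ) : bias p j ≤ j * p := by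
  unfold bias
  have := one_add_mul_le_pow (a := -p) (by linarith) j
  have e : (1 + -p) = 1 - p := by ring
  rw [e] at this
  linarith

theorem le_bias {p : ℝ} (h0 : 0 ≤ p) (h1 : p ≤ 1) {j : ℕ} (hj : j ≠ 0) : p ≤ bias p j := by
  unfold bias
  have : (1 - p) ^ j ≤ (1 - p) := pow_le_of_le_one (by linarith) (by linarith) hj
  linarith

open Classical in
/-- Repetition: an increasing event missed with probability at most `δ` is missed by the union of
`j` independent samples with probability at most `δ ^ j`. -/
theorem miss_pow {V : Finset U} {p δ : ℝ} (h0 : 0 ≤ p) (h1 : p ≤ 1) (hδ : 0 ≤ δ)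
    {F : Finset U → Prop} (hF : ∀ x y, x ⊆ y → F x → F y)
    (h : ExV V p (fun x => if F x then 0 else 1) ≤ δ) (j : ℕ) :
    ExV V (bias p j) (fun x => if F x then 0 else 1) ≤ δ ^ j := by
  induction j with
  | zero =>
    rw [bias_zero, ExV_zero]
    split_ifs <;> simp
  | succ j ih =>
    rw [bias_succ, ← ExV_union]
    have b0 := bias_nonneg h0 h1 j
    have b1 := bias_le_one h1 j
    calc _ ≤ ExV V (bias p j) (fun x => δ * if F x then 0 else 1) := by
          refine ExV_mono b0 b1 fun x _ => ?_
          by_cases hx : F x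
          · rw [if_pos hx, mul_zero]
            refine le_trans (ExV_mono h0 h1 fun y _ => ?_) (ExV_const V p 0).le
            rw [if_pos (hF _ _ subset_union_left hx)]
          · rw [if_neg hx, mul_one]
            refine le_trans (ExV_mono h0 h1 fun y _ => ?_) h
            by_cases hy : F y
            · rw [if_pos hy, if_pos (hF _ _ subset_union_right hy)]
            · rw [if_neg hy]
              split_ifs <;> simp
      _ ≤ δ ^ (j + 1) := by
          rw [ExV_mul, pow_succ']
          exact mul_le_mul_of_nonneg_left ih hδ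

end Pool.Agent.Lib.MP_79d702_lc
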