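import Mathlib

/-!
Boolean circuits over AND, OR, NOT with unbounded fan-out, written as straight-line programs:
the nodes of the acyclic graph are listed in a topological order and each gate names the positions
of its arguments in that list.
-/

namespace Pool.Agent.Lib.MP_79d702_lc

/-- A node of a circuit on `n` inputs: an input variable, a constant, or a NOT, AND or OR gate
whose arguments are given by their positions in the list of nodes. -/
inductive Gate (n : ℕ) : Type
  | input (i : Fin n)
  | const (b : Bool)
  | not (j : ℕ)
  | and (j k : ℕ)
  | or (j k : ℕ)

/-- The value of a node on input `x`, given the list `vs` of the values of the earlier nodes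
(a position that names no earlier node is read as the constant `false`). -/
def Gate.value {n : ℕ} (x : Fin n → Bool) (vs : List Bool) : Gate n → Bool
  | .input i => x i
  | .const b => b
  | .not j => !(vs.getD j false)
  | .and j k => vs.getD j false && vs.getD k false
  | .or j k => vs.getD j false || vs.getD k false

/-- The node is an AND or an OR gate. -/
def Gate.isBinary {n : ℕ} : Gate n → Bool
  | .and _ _ => true
  | .or _ _ => true
  | _ => false

/-- The node is a NOT gate. -/
def Gate.isNot {n : ℕ} : Gate n → Bool
  | .not _ => true
  | _ => false

/-- The values of all nodes of the list `gs` on input `x`. -/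
def values {n : ℕ} (gs : List (Gate n)) (x : Fin n → Bool) : List Bool :=
  gs.foldl (fun vs g => vs ++ [g.value x vs]) []

/-- A circuit on `n` inputs: its nodes in topological order and the position of the output node. -/
structure Circuit (n : ℕ) : Type where
  nodes : List (Gate n)
  out : ℕ

/-- The output of the circuit on input `x`. -/
def Circuit.eval {n : ℕ} (C : Circuit n) (x : Fin n → Bool) : Bool :=
  (values C.nodes x).getD C.out false

/-- The size: the number of AND and OR gates. -/
def Circuit.size {n : ℕ} (C : Circuit n) : ℕ := C.nodes.countP Gate.isBinary

/-- The number of NOT gates. -/
def Circuit.nots {n : ℕ} (C : Circuit n) : ℕ := C.nodes.countP Gate.isNot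

end Pool.Agent.Lib.MP_79d702_lc
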