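import Pool.Agent.Lib.MP_8f56c4_lc.Enum

/-!
If `NP` is disjunctively reducible to sparse sets, the answer vectors of parallel `NP` queries
can be listed in polynomial time.
-/

namespace Pool.Agent.Lib.MP_79d702_lc.SparseDtt

open Function N487b59b3 Pool.Agent.Shared.PolyTime N68a2faeb Pool.Agent.Lib.MP_8f56c4_lc

attribute [local fun_prop] PB.comp

/-- Existential statements with structured witnesses of bounded size are in `NP`. -/
theorem mem_NP' {α β : Type} [N487b59b3 α] [N487b59b3 β] [Dec α] [Dec β] {M : α → ℕ}
    {B : α → β → Bool} (hM : PB M) (hB : PT fun p : α × β => B p.1 p.2)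
    (hs : ∀ a, (∃ y, B a y = true) → ∃ y, B a y = true ∧ sz y ≤ M a) :
    ∃ L ∈ NP, ∀ a : α, L (bitEncode a) = true ↔ ∃ y, B a y = true := by
  classical
  have h1 : PB (fun l : List Bool => M (Dec.dec l)) := by fun_prop
  obtain ⟨q, hq⟩ := h1
  refine ⟨fun l => decide (∃ y, B (Dec.dec l) y = true),
    ⟨q.comp (3 * Polynomial.X), fun p => B (Dec.dec p.1) (Dec.dec p.2), PT.isPolyTime ?_,
      fun l => ?_⟩, fun a => ?_⟩
  · exact hB.comp' (f := fun p : List Bool × List Bool => ((Dec.dec p.1 : α), (Dec.dec p.2 : β)))
      (by fun_prop)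
  · simp only [decide_eq_true_eq]
    constructor
    · intro h
      obtain ⟨y, hb, hy⟩ := hs _ h
      refine ⟨bitEncode y, ?_, by rwa [Dec.dec_enc]⟩
      have h2 := hq l
      have h3 : (bitEncode l).length = 3 * l.length := sz_listBool l
      rw [h3] at h2
      simp only [Polynomial.eval_comp, Polynomial.eval_mul, Polynomial.eval_X,
        Polynomial.eval_ofNat]
      exact hy.trans h2
    · rintro ⟨w, -, h3⟩
      exact ⟨_, h3⟩
  · simp [Dec.dec_enc]

theorem val_inj : ∀ l l' : List Bool, l.length = l'.length → val l = val l' → l = l'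
  | [], [], _, _ => rfl
  | [], _ :: _, h, _ => by simp at h
  | _ :: _, [], h, _ => by simp at h
  | b :: l, b' :: l', h, h' => by
    simp only [val] at h'
    have h1 : b = b' ∧ val l = val l' := by
      cases b <;> cases b' <;> simp at h' ⊢ <;> omega
    rw [h1.1, val_inj l l' (by simpa using h) h1.2]

theorem count_le_of_imp {γ : Type} (L : γ → Bool) : ∀ Z : List (γ × Bool),
    (∀ z ∈ Z, z.2 = true → L z.1 = true) →
    (Z.map Prod.snd).count true ≤ (Z.map fun z => L z.1).count true ∧
    ((Z.map Prod.snd).count true = (Z.map fun z => L z.1).count true →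
      Z.map Prod.snd = Z.map fun z => L z.1)
  | [], _ => by simp
  | (a, b) :: Z, h => by
    obtain ⟨h1, h2⟩ := count_le_of_imp L Z fun z hz => h z (List.mem_cons_of_mem _ hz)
    have h3 := h (a, b) List.mem_cons_self
    simp only [List.map_cons, List.count_cons, List.cons.injEq] at h3 ⊢
    cases b <;> cases hL : L a <;> simp_all; omega

/-- Input, census, prime, level, point, value. -/
abbrev Qy := List Bool × ℕ × ℕ × ℕ × ℕ × ℕ

/-- The test language: for the right census it tests the hash value of an initial segment of the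
answer vector. -/
theorem exists_test {L : List Bool → Bool} (hL : L ∈ NP) {g : List Bool → List (List Bool)}
    (hg : PT g) : ∃ A ∈ NP, ∀ (x : List Bool) (p i v c : ℕ),
      (A (bitEncode ((x, ((g x).map L).count true, p, i, v, c) : Qy)) = true ↔
        hash p (g x).length v (val (((g x).map L).take (i + 1))) = c) := by
  classical
  obtain ⟨q, R, hR, hL⟩ := hL
  replace hR := PT.ofIsPolyTime hR
  have hq : PT fun x : List Bool => q.eval x.length := pt_eval q (by fun_prop)
  obtain ⟨A, hA, h⟩ := mem_NP' (α := Qy) (β := List (List Bool × Bool × List Bool))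
    (M := fun a => (g a.1).length * (2 * (2 * sz (g a.1) + 4 + 3 * q.eval (sz (g a.1))) + 1))
    (B := fun a Z => decide (Z.map Prod.fst = g a.1) &&
      decide ((Z.map fun z => z.2.1).count true = a.2.1) &&
      (Z.all fun z => !z.2.1 || (decide (z.2.2.length ≤ q.eval z.1.length) && R (z.1, z.2.2))) &&
      decide (hash a.2.2.1 (g a.1).length a.2.2.2.2.1 (val ((Z.map fun z => z.2.1).take
        (a.2.2.2.1 + 1))) = a.2.2.2.2.2))
    (by
      have : PB fun a : Qy => q.eval (sz (g a.1)) := PBe.eval (PB.sz (by fun_prop)) q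
      fun_prop)
    (by
      refine PT.and (PT.and (by fun_prop) (PT.all (by fun_prop) (PT.or (by fun_prop)
        (PT.and (PT.decide_le (by fun_prop) (hq.comp' (by fun_prop))) (by fun_prop))))) ?_
      fun_prop)
    (by
      rintro a ⟨Z, hZ⟩
      simp only [Bool.and_eq_true, decide_eq_true_eq, List.all_eq_true] at hZ
      obtain ⟨⟨⟨h1, h2⟩, h3⟩, h4⟩ := hZ
      refine ⟨Z.map fun z => (z.1, z.2.1, cond z.2.1 z.2.2 []), ?_, ?_⟩
      · simp only [Bool.and_eq_true, decide_eq_true_eq, List.all_eq_true, List.map_map]
        refine ⟨⟨⟨h1, h2⟩, fun z' hz' => ?_⟩, h4⟩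
        obtain ⟨z, hz, rfl⟩ := List.mem_map.1 hz'
        have := h3 z hz
        cases hb : z.2.1 <;> simp_all
      · rw [← h1, List.length_map, ← List.length_map (as := Z)
          (fun z => (z.1, z.2.1, cond z.2.1 z.2.2 []))]
        refine sz_list_le fun z' hz' => ?_
        obtain ⟨z, hz, rfl⟩ := List.mem_map.1 hz'
        have h5 := h3 z hz
        have h6 := sz_mem (List.mem_map_of_mem (f := Prod.fst) hz)
        have h7 := eval_mono q ((length_le_sz z.1).trans (show sz z.1 ≤ sz (Z.map Prod.fst) by omega))
        cases hb : z.2.1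
        · simp; omega
        · simp [hb] at h5
          simp only [sz_pair, sz_bool, cond_true, sz_listBool z.2.2]
          omega)
  refine ⟨A, hA, fun x p i v c => (h _).trans ?_⟩
  simp only [Bool.and_eq_true, decide_eq_true_eq, List.all_eq_true]
  constructor
  · rintro ⟨Z, ⟨⟨h1, h2⟩, h3⟩, h4⟩
    have h5 := (count_le_of_imp L (Z.map fun z => (z.1, z.2.1)) fun z' hz' hb => by
      obtain ⟨z, hz, rfl⟩ := List.mem_map.1 hz'
      have := h3 z hz
      simp only at hb
      simp only [hb, Bool.not_true, Bool.false_or, Bool.and_eq_true, decide_eq_true_eq] at this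
      exact (hL _).2 ⟨_, this⟩).2
    simp only [List.map_map] at h5
    have h6 : (g x).map L = Z.map fun z => L z.1 := by rw [← h1, List.map_map]; rfl
    rw [h6] at h2 ⊢
    have h7 : (Z.map fun z => z.2.1) = Z.map fun z => L z.1 := h5 h2
    rwa [h7] at h4
  · intro h1
    refine ⟨(g x).map fun a => (a, L a, if h : L a = true then ((hL a).1 h).choose else []),
      ⟨⟨by simp [Function.comp_def], by simp [Function.comp_def]⟩, fun z hz => ?_⟩,
      by simpa [Function.comp_def] using h1⟩
    obtain ⟨a, -, rfl⟩ := List.mem_map.1 hz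
    by_cases ha : L a = true
    · simpa [ha] using ((hL a).1 ha).choose_spec
    · simp [ha]

/-- All pairs of a point and a value. -/
def prs (p : ℕ) : List (ℕ × ℕ) := (List.range p).product (List.range p)

/-- One level of the search for the answer vector. -/
def lvl (G : List Bool → List (List Bool)) (x : List Bool) (k p m : ℕ) (cur : List (List Bool))
    (i : ℕ) : List (List Bool) :=
  ((prs p).flatMap fun e => G (bitEncode ((x, k, p, i, e) : Qy))).filterMap fun w =>
    (cur.flatMap fun u => [u ++ [false], u ++ [true]]).find? fun u =>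
      decide (u.length = i + 1) && (prs p).all fun e =>
        !decide (w ∈ G (bitEncode ((x, k, p, i, e) : Qy))) || decide (hash p m e.1 (val u) = e.2)

/-- The candidates for a given census. -/
def cands (G : List Bool → List (List Bool)) (x : List Bool) (k p m : ℕ) : List (List Bool) :=
  (List.range m).foldl (lvl G x k p m) [[]]

theorem pt_cands {α : Type} [N487b59b3 α] {G : List Bool → List (List Bool)} (hG : PT G)
    {x : α → List Bool} {k p m : α → ℕ} (hx : PT x) (hk : PT k) (hp : PT p) (bp : PB p)
    (hm : PT m) (bm : PB m) : PT fun a => cands G (x a) (k a) (p a) (m a) := by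
  obtain ⟨g, hg, hb⟩ := PT.bound_mem (l := fun a => List.range (m a))
    (h := fun a i => (prs (p a)).flatMap fun e => G (bitEncode ((x a, k a, p a, i, e) : Qy)))
    (by unfold prs; fun_prop) (by fun_prop)
  refine PT.foldl_inv (f := fun a cur i => lvl G (x a) (k a) (p a) (m a) cur i)
    (by unfold lvl prs; fun_prop) (by fun_prop) (by fun_prop)
    (fun a cur => cur.length ≤ g a + 1 ∧ ∀ u ∈ cur, u.length ≤ m a) (fun a => by simp)
    (fun a cur i hi _ => ⟨?_, fun u hu => ?_⟩)
    (B := fun a => (g a + 1) * (2 * (3 * m a) + 1)) (by fun_prop) fun a cur h => ?_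
  · exact (List.length_filterMap_le _ _).trans (((length_le_sz _).trans (hb a i hi)).trans
      (Nat.le_succ _))
  · obtain ⟨w, -, h⟩ := List.mem_filterMap.1 hu
    have h1 := List.find?_some h
    simp only [Bool.and_eq_true, decide_eq_true_eq] at h1
    have := List.mem_range.1 hi
    omega
  · refine (sz_list_le (B := 3 * m a) fun u hu => ?_).trans (Nat.mul_le_mul_right _ h.1)
    have := h.2 u hu
    rw [sz_listBool]; omega

theorem mem_cands {G : List Bool → List (List Bool)} {S : List Bool → Bool} {x b : List Bool}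
    {k p : ℕ} (hp : p.Prime) (F : Finset (List Bool)) (hF : F.card * b.length < p)
    (hS : ∀ i < b.length, ∀ v < p, ∀ c < p, ∀ w ∈ G (bitEncode ((x, k, p, i, v, c) : Qy)),
      S w = true → w ∈ F)
    (hG : ∀ i v c, (∃ w ∈ G (bitEncode ((x, k, p, i, v, c) : Qy)), S w = true) ↔
      hash p b.length v (val (b.take (i + 1))) = c) : b ∈ cands G x k p b.length := by
  have key : ∀ i ≤ b.length, b.take i ∈ (List.range i).foldl (lvl G x k p b.length) [[]] := by
    intro i
    induction i with
    | zero => simp
    | succ i ih =>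
      intro hi
      rw [List.range_succ, List.foldl_append, List.foldl_cons, List.foldl_nil]
      have h0 := ih (by omega)
      generalize (List.range i).foldl (lvl G x k p b.length) [[]] = cur at h0
      choose! W hW using fun v => (hG i v (hash p b.length v (val (b.take (i + 1))))).2 rfl
      obtain ⟨w, -, hw⟩ := Finset.exists_lt_card_fiber_of_mul_lt_card_of_maps_to
        (s := Finset.range p) (t := F) (f := W) (n := b.length)
        (fun v hv => hS i (by omega) v (Finset.mem_range.1 hv) _ (hash_lt hp.pos _ _ _) _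
          (hW v).1 (hW v).2) (by simpa using hF)
      obtain ⟨v0, hv0⟩ := Finset.card_pos.1 (lt_of_le_of_lt (Nat.zero_le _) hw)
      obtain ⟨hv1, hv2⟩ := Finset.mem_filter.1 hv0
      have hmem : ∀ v < p, (v, hash p b.length v (val (b.take (i + 1)))) ∈ prs p := fun v hv =>
        List.pair_mem_product.2 ⟨List.mem_range.2 hv, List.mem_range.2 (hash_lt hp.pos _ _ _)⟩
      have hlen : (b.take (i + 1)).length = i + 1 := by simp; omega
      unfold lvl
      refine List.mem_filterMap.2 ⟨w, List.mem_flatMap.2 ⟨_, hmem v0 (Finset.mem_range.1 hv1),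
        hv2 ▸ (hW v0).1⟩, ?_⟩
      cases h : (cur.flatMap fun u => [u ++ [false], u ++ [true]]).find? fun u =>
          decide (u.length = i + 1) && (prs p).all fun e =>
            !decide (w ∈ G (bitEncode ((x, k, p, i, e) : Qy))) ||
              decide (hash p b.length e.1 (val u) = e.2) with
      | none =>
        exfalso
        refine List.find?_eq_none.1 h (b.take (i + 1)) (List.mem_flatMap.2 ⟨_, h0, ?_⟩) ?_
        · rw [List.take_succ_eq_append_getElem (by omega)]
          cases b[i] <;> simp
        · simp only [Bool.and_eq_true, decide_eq_true_eq, List.all_eq_true, Bool.or_eq_true,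
            Bool.not_eq_true', decide_eq_false_iff_not]
          refine ⟨hlen, fun e _ => or_iff_not_imp_left.2 fun he => ?_⟩
          exact (hG i e.1 e.2).1 ⟨w, not_not.1 he, hv2 ▸ (hW v0).2⟩
      | some u =>
        have h1 := List.find?_some h
        simp only [Bool.and_eq_true, decide_eq_true_eq, List.all_eq_true, Bool.or_eq_true,
          Bool.not_eq_true', decide_eq_false_iff_not] at h1
        congr 1
        refine val_inj _ _ (by rw [hlen, h1.1]) ?_
        by_contra hne
        have hb : 2 ^ (i + 1) ≤ 2 ^ b.length := Nat.pow_le_pow_right (by omega) hi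
        have h2 := card_coll (N := b.length) hp ((val_lt u).trans_le (by rwa [h1.1]))
          ((val_lt _).trans_le (by rwa [hlen])) hne
        refine absurd (hw.trans_le (le_trans (Finset.card_le_card fun v hv => ?_) h2)) (lt_irrefl _)
        obtain ⟨h3, h4⟩ := Finset.mem_filter.1 hv
        refine Finset.mem_filter.2 ⟨h3, ?_⟩
        exact (h1.2 _ (hmem v (Finset.mem_range.1 h3))).resolve_left
          (not_not.2 (h4 ▸ (hW v).1))
  simpa [cands] using key _ le_rfl

theorem pt_pr {α : Type} [N487b59b3 α] {D : α → ℕ} (hD : PT D) (bD : PB D) :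
    PT fun a => pr (D a) := by
  unfold pr isP; fun_prop

theorem NP_subset_P_of_dtt (H : ∀ L ∈ NP, ∃ S : List Bool → Bool,
    (∃ q : Polynomial ℕ, ∀ n, {w : List Bool | w.length ≤ n ∧ S w = true}.ncard ≤ q.eval n) ∧
    ∃ G : List Bool → List (List Bool), IsPolyTime G ∧
      ∀ x, (L x = true ↔ ∃ w ∈ G x, S w = true)) : NP ⊆ P := by
  refine NP_subset_P fun L hL g hg => ?_
  obtain ⟨A, hA, hAs⟩ := exists_test hL hg
  obtain ⟨S, ⟨q, hq⟩, G, hG, hGs⟩ := H A hA
  replace hG := PT.ofIsPolyTime hG
  obtain ⟨qg, hqg⟩ := PB.length hg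
  obtain ⟨qG, hqG⟩ := PB.sz hG
  let r : Polynomial ℕ := q.comp (qG.comp (3 * (11 * Polynomial.X +
    4 * qg.comp (3 * Polynomial.X) + 5))) * qg.comp (3 * Polynomial.X) + 1
  obtain ⟨C, hC⟩ := poly_lt_two_pow (2 * r)
  have h1 : PT fun x : List Bool => r.eval (x.length + C) := pt_eval r (by fun_prop)
  have h2 : PB fun x : List Bool => r.eval (x.length + C) :=
    PBe.eval (PB.add (PB.length PT.id') (PB.const C)) r
  have h3 : PT fun x : List Bool => pr (r.eval (x.length + C)) := pt_pr h1 h2
  have h4 : PB fun x : List Bool => pr (r.eval (x.length + C)) :=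
    PB.mono (g := fun x => 2 * r.eval (x.length + C)) (by fun_prop) fun _ => pr_le _
  refine ⟨fun x => (List.range ((g x).length + 1)).flatMap fun k =>
    cands G x k (pr (r.eval (x.length + C))) (g x).length,
    PT.flatMap (by fun_prop) (pt_cands hG (by fun_prop) (by fun_prop) (h3.comp' (by fun_prop))
      (h4.comp (by fun_prop)) (by fun_prop) (by fun_prop)), fun x => ?_⟩
  have hk : ((g x).map L).count true ≤ (g x).length := by
    simpa using List.count_le_length (a := true) (l := (g x).map L)
  refine List.mem_flatMap.2 ⟨((g x).map L).count true, List.mem_range.2 (by omega), ?_⟩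
  set N := x.length + C with hN
  have hr : r.eval N = q.eval (qG.eval (3 * (11 * N + 4 * qg.eval (3 * N) + 5))) *
      qg.eval (3 * N) + 1 := by simp [r, Polynomial.eval_comp]
  obtain ⟨hp, hD⟩ := pr_spec (D := r.eval N) (by omega)
  have hle := pr_le (r.eval N)
  have h5 := hC N (by omega)
  simp only [Polynomial.eval_mul, Polynomial.eval_ofNat] at h5
  generalize pr (r.eval N) = p at hp hD hle
  have hm : (g x).length ≤ qg.eval (3 * N) := by
    refine (hqg x).trans (eval_mono qg ?_)
    change sz x ≤ _
    rw [sz_listBool]; omega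
  have hfin : {w : List Bool | w.length ≤ qG.eval (3 * (11 * N + 4 * qg.eval (3 * N) + 5)) ∧
      S w = true}.Finite := (List.finite_length_le Bool _).subset fun w hw => hw.1
  have := mem_cands (G := G) (S := S) (x := x) (b := (g x).map L)
    (k := ((g x).map L).count true) hp hfin.toFinset ?_ ?_ ?_
  · simpa using this
  · rw [← Set.ncard_eq_toFinset_card _ hfin, List.length_map]
    have := Nat.mul_le_mul (hq (qG.eval (3 * (11 * N + 4 * qg.eval (3 * N) + 5)))) hm
    omega
  · intro i hi v hv c hc w hw hSw
    rw [List.length_map] at hi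
    refine hfin.mem_toFinset.2 ⟨?_, hSw⟩
    have h6 := sz_mem hw
    have h7 := length_le_sz w
    refine le_trans (h7.trans ((Nat.le_mul_of_pos_left _ two_pos).trans (Nat.le_of_succ_le h6)))
      ((hqG _).trans (eval_mono qG ?_))
    change sz (bitEncode _) ≤ _
    rw [sz_listBool]
    change 3 * sz _ ≤ _
    have h8 : sz p ≤ N := by rw [sz_nat, Nat.size_le]; omega
    have h9 := sz_nat_mono hv.le
    have h10 := sz_nat_mono hc.le
    have h11 := sz_nat_le i
    have h12 := sz_nat_le (((g x).map L).count true)
    simp only [sz_pair, sz_listBool]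
    omega
  · intro i v c
    rw [← hGs, hAs, List.length_map]

end Pool.Agent.Lib.MP_79d702_lc.SparseDtt
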